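import Mathlib

/-!
MP_ca57f4_an, Q1: the values of the discrete X-ray transform on the lines `γ_z`, `z ∈ ℤ²`,
do NOT determine a function `f` with `f(x) = O(|x|^{-(1+ε)})`.

Counterexample: `f(x) = (-1)^b |x|^{-2}` if `|x|^2 = 2^b`, `f(x) = 0` for the other `x ≠ 0`, and
`f(0)` chosen so that the sum over `γ_0` vanishes.
-/

namespace Pool.Agent.Results.MP_ca57f4_an.XrayNonunique

/-- Euclidean length of an integer vector. -/
noncomputable def len (z : ℤ × ℤ) : ℝ := √((z.1 : ℝ) ^ 2 + (z.2 : ℝ) ^ 2)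

/-- The line `γ_z` of the problem.  For `z ≠ 0` it is the line through `z` perpendicular to `z`;
`γ_0` is the line through the origin with the rational direction `w/|w|`. -/
noncomputable def gamma (w z : ℤ × ℤ) : Set (ℝ × ℝ) :=
  if z = 0 then {p | ∃ t : ℝ, p = (t * (w.1 / len w), t * (w.2 / len w))}
  else {p | ∃ t : ℝ, p = (z.1 + t * (-z.2 / len z), z.2 + t * (z.1 / len z))}

/-- The integer points of a subset of the plane. -/
def lat (γ : Set (ℝ × ℝ)) : Set (ℤ × ℤ) := {y | ((y.1 : ℝ), (y.2 : ℝ)) ∈ γ}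

/-- The discrete X-ray transform. -/
noncomputable def P (f : ℤ × ℤ → ℂ) (γ : Set (ℝ × ℝ)) : ℂ := ∑' y : lat γ, f y

/-- `F n = (-1/2)^b` if `n = 2^b`, and `0` otherwise. -/
noncomputable def F (n : ℕ) : ℂ :=
  if n = 2 ^ (Nat.log 2 n) then (-1 / 2 : ℂ) ^ (Nat.log 2 n) else 0

/-- Squared length as a natural number. -/
def N (y : ℤ × ℤ) : ℕ := y.1.natAbs ^ 2 + y.2.natAbs ^ 2

lemma F_zero : F 0 = 0 := by simp [F]

lemma F_one : F 1 = 1 := by simp [F]

lemma F_double {n : ℕ} (hn : n ≠ 0) : F (2 * n) = -(F n) / 2 := by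
  have h1 : Nat.log 2 (2 * n) = Nat.log 2 n + 1 := by
    rw [mul_comm]; exact Nat.log_mul_base (by norm_num) hn
  unfold F
  rw [h1]
  have h2 : (2 * n = 2 ^ (Nat.log 2 n + 1)) ↔ (n = 2 ^ (Nat.log 2 n)) := by
    rw [pow_succ]; constructor <;> intro h <;> omega
  by_cases h : n = 2 ^ (Nat.log 2 n)
  · rw [if_pos (h2.mpr h), if_pos h, pow_succ]; ring
  · rw [if_neg (fun h' => h (h2.mp h')), if_neg h]; simp

lemma F_ne {n : ℕ} (h : F n ≠ 0) : ∃ r : ℕ, n = 2 ^ r := by
  unfold F at h
  by_contra hc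
  apply h
  rw [if_neg]
  intro h'
  exact hc ⟨_, h'⟩

lemma F_norm (n : ℕ) : ‖F n‖ ≤ 1 / (n : ℝ) := by
  unfold F
  split_ifs with h
  · have h2 : (n : ℝ) = 2 ^ (Nat.log 2 n) := by exact_mod_cast h
    rw [h2, norm_pow]
    simp
  · simp

lemma sumsq_pow : ∀ r : ℕ, ∀ a b : ℕ, a ^ 2 + b ^ 2 = 2 ^ r → a ≠ 0 → b = 0 ∨ b = a := by
  intro r
  induction r using Nat.strong_induction_on with
  | _ r ih =>
    intro a b h ha
    rcases Nat.lt_or_ge r 2 with hr | hr
    · have hle : a ^ 2 + b ^ 2 ≤ 2 := by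
        rw [h]; interval_cases r <;> norm_num
      have ha1 : a ≤ 1 := by nlinarith
      have hb1 : b ≤ 1 := by nlinarith
      omega
    · obtain ⟨s, rfl⟩ : ∃ s, r = s + 2 := ⟨r - 2, by omega⟩
      have h4 : (a ^ 2 + b ^ 2) % 4 = 0 := by
        rw [h, pow_add]; omega
      have hpar : a % 2 = 0 ∧ b % 2 = 0 := by
        rw [Nat.add_mod, Nat.pow_mod a, Nat.pow_mod b] at h4
        have h5 : a % 4 < 4 := Nat.mod_lt _ (by norm_num)
        have h6 : b % 4 < 4 := Nat.mod_lt _ (by norm_num)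
        have h7 : a % 2 = (a % 4) % 2 := by omega
        have h8 : b % 2 = (b % 4) % 2 := by omega
        rw [h7, h8]
        generalize a % 4 = x at *
        generalize b % 4 = y at *
        interval_cases x <;> interval_cases y <;> simp_all
      obtain ⟨c, rfl⟩ : ∃ c, a = 2 * c := ⟨a / 2, by omega⟩
      obtain ⟨d, rfl⟩ : ∃ d, b = 2 * d := ⟨b / 2, by omega⟩
      have h9 : c ^ 2 + d ^ 2 = 2 ^ s := by
        have : 2 ^ (s + 2) = 4 * 2 ^ s := by rw [pow_add]; ring
        rw [this] at h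
        nlinarith
      rcases ih s (by omega) c d h9 (by omega) with h10 | h10
      · left; omega
      · right; omega

lemma mem_gamma {w z y : ℤ × ℤ} (hz : z ≠ 0) :
    y ∈ lat (gamma w z) ↔ y.1 * z.1 + y.2 * z.2 = z.1 ^ 2 + z.2 ^ 2 := by
  have hpos : 0 < (z.1 : ℝ) ^ 2 + (z.2 : ℝ) ^ 2 := by
    have : z.1 ≠ 0 ∨ z.2 ≠ 0 := by
      by_contra hc
      push Not at hc
      exact hz (Prod.ext hc.1 hc.2)
    rcases this with h | h
    · have : (z.1 : ℝ) ≠ 0 := by exact_mod_cast h
      positivity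
    · have : (z.2 : ℝ) ≠ 0 := by exact_mod_cast h
      positivity
  have hl : 0 < len z := Real.sqrt_pos.mpr hpos
  have hl2 : len z ^ 2 = (z.1 : ℝ) ^ 2 + (z.2 : ℝ) ^ 2 := Real.sq_sqrt hpos.le
  unfold lat gamma
  rw [if_neg hz]
  simp only [Set.mem_ofPred_eq, Prod.mk.injEq]
  have key : (y.1 * z.1 + y.2 * z.2 = z.1 ^ 2 + z.2 ^ 2) ↔
      ((y.1 : ℝ) * z.1 + y.2 * z.2 = (z.1 : ℝ) ^ 2 + (z.2 : ℝ) ^ 2) := by
    constructor
    · intro h; exact_mod_cast h
    · intro h; exact_mod_cast h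
  rw [key]
  constructor
  · rintro ⟨t, h1, h2⟩
    rw [h1, h2]
    field_simp
    ring
  · intro h
    refine ⟨((y.1 - z.1) * (-z.2) + (y.2 - z.2) * z.1) / len z, ?_, ?_⟩
    · have : ((y.1 : ℝ) - z.1) * (len z ^ 2) =
          ((y.1 - z.1) * (-z.2) + (y.2 - z.2) * z.1) * (-z.2) := by
        rw [hl2]; linear_combination (z.1 : ℝ) * h
      field_simp
      linear_combination this
    · have : ((y.2 : ℝ) - z.2) * (len z ^ 2) =
          ((y.1 - z.1) * (-z.2) + (y.2 - z.2) * z.1) * (z.1) := by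
        rw [hl2]; linear_combination (z.2 : ℝ) * h
      field_simp
      linear_combination this

lemma exists_prim {z : ℤ × ℤ} (hz : z ≠ 0) :
    ∃ (g : ℕ) (p q : ℤ), g ≠ 0 ∧ IsCoprime p q ∧ z = ((g : ℤ) * p, (g : ℤ) * q) := by
  have hg : Int.gcd z.1 z.2 ≠ 0 := by
    intro h
    rw [Int.gcd_eq_zero_iff] at h
    exact hz (Prod.ext h.1 h.2)
  obtain ⟨p, q, h1, h2, h3⟩ := Int.exists_gcd_one (m := z.1) (n := z.2) (Nat.pos_of_ne_zero hg)
  refine ⟨Int.gcd z.1 z.2, p, q, hg, Int.isCoprime_iff_gcd_eq_one.mpr h1, ?_⟩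
  ext
  · simp only; linarith
  · simp only; linarith

/-- sum over a line not through the origin -/
lemma line_sum {w z : ℤ × ℤ} (hz : z ≠ 0) {f : ℤ × ℤ → ℂ} (hf : ∀ x, x ≠ 0 → f x = F (N x)) :
    HasSum (fun y : lat (gamma w z) => f y) 0 := by
  obtain ⟨g, p, q, hg, hpq, hzz⟩ := exists_prim hz
  have hgZ : (g : ℤ) ≠ 0 := by exact_mod_cast hg
  have hz1 : z.1 = g * p := by rw [hzz]
  have hz2 : z.2 = g * q := by rw [hzz]
  have hmem : ∀ k : ℤ, ((z.1 - k * q, z.2 + k * p) : ℤ × ℤ) ∈ lat (gamma w z) := by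
    intro k
    rw [mem_gamma hz]
    simp only
    rw [hz1, hz2]
    ring
  have hbij : Function.Bijective
      (fun k : ℤ => (⟨(z.1 - k * q, z.2 + k * p), hmem k⟩ : lat (gamma w z))) := by
    constructor
    · intro k l hkl
      simp only [Subtype.mk.injEq, Prod.mk.injEq] at hkl
      obtain ⟨h1, h2⟩ := hkl
      obtain ⟨a, b, hab⟩ := hpq
      have : (k - l) * (a * p + b * q) = 0 := by
        have h3 : (k - l) * p = 0 := by linarith
        have h4 : (k - l) * q = 0 := by linarith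
        linear_combination a * h3 + b * h4
      rw [hab] at this
      linarith
    · rintro ⟨y, hy⟩
      rw [mem_gamma hz] at hy
      have h1 : (y.1 - z.1) * p + (y.2 - z.2) * q = 0 := by
        have : (g : ℤ) * ((y.1 - z.1) * p + (y.2 - z.2) * q) = 0 := by
          rw [hz1, hz2] at hy ⊢
          linear_combination hy
        rcases mul_eq_zero.mp this with h | h
        · exact absurd h hgZ
        · exact h
      obtain ⟨a, b, hab⟩ := hpq
      refine ⟨a * (y.2 - z.2) - b * (y.1 - z.1), ?_⟩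
      apply Subtype.ext
      apply Prod.ext
      · simp only
        linear_combination (y.1 - z.1) * hab - a * h1
      · simp only
        linear_combination ((y.2 - z.2)) * hab - b * h1
  set e := Equiv.ofBijective _ hbij with he
  rw [← e.hasSum_iff]
  have hN : ∀ k : ℤ, N (z.1 - k * q, z.2 + k * p) = (g ^ 2 + k.natAbs ^ 2) * N (p, q) := by
    intro k
    unfold N
    zify
    simp only [sq_abs]
    rw [hz1, hz2]
    ring
  have hNp : N (p, q) ≠ 0 := by
    intro h
    unfold N at h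
    have h0 := Nat.add_eq_zero_iff.mp h
    have h1 : p = 0 := by simpa using h0.1
    have h2 : q = 0 := by simpa using h0.2
    rw [h1, h2] at hpq
    obtain ⟨a, b, hab⟩ := hpq
    simp at hab
  have hval : ∀ k : ℤ, f (z.1 - k * q, z.2 + k * p) = F ((g ^ 2 + k.natAbs ^ 2) * N (p, q)) := by
    intro k
    rw [← hN k]
    apply hf
    intro h
    have h1 := hN k
    rw [h] at h1
    have h2 : N (0 : ℤ × ℤ) = 0 := by simp [N]
    rw [h2] at h1
    have h3 : (g ^ 2 + k.natAbs ^ 2) * N (p, q) ≠ 0 := by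
      have : 0 < g ^ 2 := by positivity
      apply mul_ne_zero _ hNp
      omega
    exact h3 h1.symm
  have hcomp : ((fun y : lat (gamma w z) => f y) ∘ e) =
      fun k : ℤ => F ((g ^ 2 + k.natAbs ^ 2) * N (p, q)) := by
    funext k
    exact hval k
  rw [hcomp]
  have hne1 : (0 : ℤ) ≠ g := fun h => hgZ h.symm
  have hne2 : (0 : ℤ) ≠ -g := by intro h; apply hgZ; linarith
  have hne3 : (g : ℤ) ≠ -g := by intro h; apply hgZ; linarith
  have hsum := hasSum_sum_of_ne_finset_zero (L := .unconditional ℤ)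
    (f := fun k : ℤ => F ((g ^ 2 + k.natAbs ^ 2) * N (p, q)))
    (s := ({0, (g : ℤ), -(g : ℤ)} : Finset ℤ)) (by
      intro k hk
      by_contra hc
      obtain ⟨r, hr⟩ := F_ne hc
      have hdvd : (g ^ 2 + k.natAbs ^ 2) ∣ 2 ^ r := ⟨_, hr.symm⟩
      obtain ⟨s, -, hs⟩ := (Nat.dvd_prime_pow Nat.prime_two).mp hdvd
      rcases sumsq_pow s g k.natAbs hs hg with h | h
      · apply hk
        simp only [Finset.mem_insert, Finset.mem_singleton]
        left
        simpa using h
      · apply hk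
        simp only [Finset.mem_insert, Finset.mem_singleton]
        right
        omega)
  have hz0 : ∑ k ∈ ({0, (g : ℤ), -(g : ℤ)} : Finset ℤ), F ((g ^ 2 + k.natAbs ^ 2) * N (p, q)) = 0 := by
    rw [Finset.sum_insert (by
      simp only [Finset.mem_insert, Finset.mem_singleton, not_or]; exact ⟨hne1, hne2⟩),
      Finset.sum_insert (by simp only [Finset.mem_singleton]; exact hne3), Finset.sum_singleton]
    have e1 : (g ^ 2 + (0 : ℤ).natAbs ^ 2) * N (p, q) = g ^ 2 * N (p, q) := by simp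
    have e2 : (g ^ 2 + (g : ℤ).natAbs ^ 2) * N (p, q) = 2 * (g ^ 2 * N (p, q)) := by
      simp; ring
    have e3 : (g ^ 2 + (-(g : ℤ)).natAbs ^ 2) * N (p, q) = 2 * (g ^ 2 * N (p, q)) := by
      simp; ring
    rw [e1, e2, e3, F_double (mul_ne_zero (pow_ne_zero _ hg) hNp)]
    ring
  rw [hz0] at hsum
  exact hsum

lemma mem_gamma_zero {w y : ℤ × ℤ} (hy : y ∈ lat (gamma w 0)) : y.1 * w.2 = y.2 * w.1 := by
  unfold lat gamma at hy
  rw [if_pos rfl] at hy
  simp only [Set.mem_ofPred_eq, Prod.mk.injEq] at hy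
  obtain ⟨t, h1, h2⟩ := hy
  have : (y.1 : ℝ) * w.2 = y.2 * w.1 := by
    rw [h1, h2]; ring
  exact_mod_cast this

lemma zero_mem (w : ℤ × ℤ) : (0 : ℤ × ℤ) ∈ lat (gamma w 0) := by
  unfold lat gamma
  rw [if_pos rfl]
  exact ⟨0, by simp⟩

lemma summable_int_sq : Summable (fun n : ℤ => 1 / (n : ℝ) ^ 2) :=
  Real.summable_one_div_int_pow.mpr (by norm_num)

lemma summable_zero {w : ℤ × ℤ} (hw : w ≠ 0) :
    Summable (fun y : lat (gamma w 0) => F (N y)) := by
  have hw' : w.1 ≠ 0 ∨ w.2 ≠ 0 := by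
    by_contra hc
    push Not at hc
    exact hw (Prod.ext hc.1 hc.2)
  rcases hw' with h | h
  · have hinj : Function.Injective (fun y : lat (gamma w 0) => (y : ℤ × ℤ).1) := by
      rintro ⟨y, hy⟩ ⟨x, hx⟩ hxy
      simp only at hxy
      have h1 := mem_gamma_zero hy
      have h2 := mem_gamma_zero hx
      apply Subtype.ext
      apply Prod.ext hxy
      have : (y.2 - x.2) * w.1 = 0 := by
        rw [hxy] at h1
        linear_combination h2 - h1
      rcases mul_eq_zero.mp this with h3 | h3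
      · linarith
      · exact absurd h3 h
    refine Summable.of_norm_bounded (summable_int_sq.comp_injective hinj) ?_
    rintro ⟨y, hy⟩
    show ‖F (N y)‖ ≤ 1 / (y.1 : ℝ) ^ 2
    by_cases hy1 : y.1 = 0
    · have h1 := mem_gamma_zero hy
      rw [hy1] at h1
      have hy2 : y.2 = 0 := by
        have : y.2 * w.1 = 0 := by linarith
        rcases mul_eq_zero.mp this with h3 | h3
        · exact h3
        · exact absurd h3 h
      have : N y = 0 := by simp [N, hy1, hy2]
      rw [this, F_zero, norm_zero]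
      positivity
    · refine (F_norm _).trans ?_
      have hyR : (y.1 : ℝ) ≠ 0 := by exact_mod_cast hy1
      have hpos : 0 < (y.1 : ℝ) ^ 2 := by positivity
      apply one_div_le_one_div_of_le hpos
      unfold N
      push_cast
      rw [Nat.cast_natAbs, Nat.cast_natAbs]
      push_cast
      rw [sq_abs, sq_abs]
      nlinarith [sq_nonneg (y.2 : ℝ)]
  · have hinj : Function.Injective (fun y : lat (gamma w 0) => (y : ℤ × ℤ).2) := by
      rintro ⟨y, hy⟩ ⟨x, hx⟩ hxy
      simp only at hxy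
      have h1 := mem_gamma_zero hy
      have h2 := mem_gamma_zero hx
      apply Subtype.ext
      refine Prod.ext ?_ hxy
      have : (y.1 - x.1) * w.2 = 0 := by
        rw [hxy] at h1
        linear_combination h1 - h2
      rcases mul_eq_zero.mp this with h3 | h3
      · linarith
      · exact absurd h3 h
    refine Summable.of_norm_bounded (summable_int_sq.comp_injective hinj) ?_
    rintro ⟨y, hy⟩
    show ‖F (N y)‖ ≤ 1 / (y.2 : ℝ) ^ 2
    by_cases hy2 : y.2 = 0
    · have h1 := mem_gamma_zero hy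
      rw [hy2] at h1
      have hy1 : y.1 = 0 := by
        have : y.1 * w.2 = 0 := by linarith
        rcases mul_eq_zero.mp this with h3 | h3
        · exact h3
        · exact absurd h3 h
      have : N y = 0 := by simp [N, hy1, hy2]
      rw [this, F_zero, norm_zero]
      positivity
    · refine (F_norm _).trans ?_
      have hyR : (y.2 : ℝ) ≠ 0 := by exact_mod_cast hy2
      have hpos : 0 < (y.2 : ℝ) ^ 2 := by positivity
      apply one_div_le_one_div_of_le hpos
      unfold N
      push_cast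
      rw [Nat.cast_natAbs, Nat.cast_natAbs]
      push_cast
      rw [sq_abs, sq_abs]
      nlinarith [sq_nonneg (y.1 : ℝ)]

theorem result (w : ℤ × ℤ) (hw : w ≠ 0) :
    ∃ f : ℤ × ℤ → ℂ, f ≠ 0 ∧
      (∀ x : ℤ × ℤ, x ≠ 0 → ‖f x‖ ≤ (len x) ^ (-(1 + 1) : ℝ)) ∧
      ∀ z : ℤ × ℤ, Summable (fun y : lat (gamma w z) => f y) ∧ P f (gamma w z) = 0 := by
  set c : ℂ := ∑' y : lat (gamma w 0), F (N y) with hc
  refine ⟨fun x => if x = 0 then -c else F (N x), ?_, ?_, ?_⟩
  · intro h
    have h1 := congrFun h (1, 0)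
    have h2 : ((1, 0) : ℤ × ℤ) ≠ 0 := by
      intro h; simpa using congrArg Prod.fst h
    simp only [if_neg h2, Pi.zero_apply] at h1
    have h3 : N ((1, 0) : ℤ × ℤ) = 1 := by simp [N]
    rw [h3, F_one] at h1
    exact one_ne_zero h1
  · intro x hx
    simp only [if_neg hx]
    refine (F_norm _).trans (le_of_eq ?_)
    have h1 : (len x) ^ (-(1 + 1) : ℝ) = ((len x) ^ 2)⁻¹ := by
      have : (-(1 + 1) : ℝ) = -((2 : ℕ) : ℝ) := by norm_num
      rw [this, Real.rpow_neg (show 0 ≤ len x from Real.sqrt_nonneg _), Real.rpow_natCast]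
    rw [h1]
    unfold len
    rw [Real.sq_sqrt (by positivity), one_div]
    congr 1
    unfold N
    push_cast
    rw [Nat.cast_natAbs, Nat.cast_natAbs]
    push_cast
    rw [sq_abs, sq_abs]
  · intro z
    by_cases hz : z = 0
    · subst hz
      have hs := (summable_zero hw).hasSum
      have hsingle : HasSum (fun y : lat (gamma w 0) => if (y : ℤ × ℤ) = 0 then -c else 0) (-c) := by
        have := hasSum_ite_eq (⟨0, zero_mem w⟩ : lat (gamma w 0)) (-c)
        refine this.congr_fun ?_ 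
        intro y
        by_cases hy : (y : ℤ × ℤ) = 0
        · rw [if_pos hy, if_pos (Subtype.ext hy)]
        · rw [if_neg hy, if_neg (fun h => hy (congrArg Subtype.val h))]
      have hadd := hs.add hsingle
      have hfun : (fun y : lat (gamma w 0) => if (y : ℤ × ℤ) = 0 then -c else F (N y)) =
          fun y : lat (gamma w 0) => F (N y) + (if (y : ℤ × ℤ) = 0 then -c else 0) := by
        funext y
        by_cases hy : (y : ℤ × ℤ) = 0
        · rw [if_pos hy, if_pos hy, hy]
          have : N (0 : ℤ × ℤ) = 0 := by simp [N]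
          rw [this, F_zero, zero_add]
        · rw [if_neg hy, if_neg hy, add_zero]
      unfold P
      rw [hfun]
      refine ⟨hadd.summable, ?_⟩
      rw [hadd.tsum_eq, ← hc, add_neg_cancel]
    · have h := line_sum (w := w) hz (f := fun x => if x = 0 then -c else F (N x))
        (fun x hx => if_neg hx)
      exact ⟨h.summable, h.tsum_eq⟩

end Pool.Agent.Results.MP_ca57f4_an.XrayNonunique
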